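import Pool.Agent.Zk71.MB.Pt

/-! # Uniqueness of classical solutions -/

set_option autoImplicit false

open MeasureTheory Set
open scoped ENNReal NNReal Topology

namespace Pool.Agent.Zk71.MB

open Pool.Agent.H708R2.EulerSign Pool.Agent.Zk27.MB

variable {T : (V → V) → V → V} {C a : ℝ} {u w : ℝ → V → V} {q r : ℝ → V → ℝ}

lemma entry_le (L : V →L[ℝ] V) (i j : Fin 3) : |L (Pi.single j 1) i| ≤ ‖L‖ := by
  have h1 : ‖L (Pi.single j 1) i‖ ≤ ‖L (Pi.single j 1)‖ := norm_le_pi_norm _ i
  have h2 := L.le_opNorm (Pi.single j 1)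
  have h3 : ‖(Pi.single j 1 : V)‖ ≤ 1 := by
    rw [pi_norm_le_iff_of_nonneg zero_le_one]
    intro k
    by_cases h : k = j
    · subst h; simp
    · simp [h]
  rw [← Real.norm_eq_abs]
  refine h1.trans (h2.trans ?_)
  exact (mul_le_mul_of_nonneg_left h3 (norm_nonneg _)).trans (by rw [mul_one])

lemma sq3_add (y s : V) : sq3 (y + s) ≤ 2 * sq3 y + 2 * sq3 s := by
  unfold sq3
  rw [Finset.mul_sum, Finset.mul_sum, ← Finset.sum_add_distrib]
  refine Finset.sum_le_sum fun i _ => ?_
  rw [Pi.add_apply]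
  nlinarith [sq_nonneg (y i - s i)]

lemma bil_bound (z s : V) (A : Fin 3 → Fin 3 → ℝ) {K : ℝ} (hK : ∀ i j, |A i j| ≤ K) :
    |2 * ∑ i, ∑ j, s j * z i * (A i j - A j i)| ≤ 6 * K * (sq3 s + sq3 z) := by
  have hK0 : 0 ≤ K := (abs_nonneg _).trans (hK 0 0)
  have h1 : |∑ i, ∑ j, s j * z i * (A i j - A j i)| ≤ ∑ i, ∑ j, |s j| * |z i| * (2 * K) := by
    refine (Finset.abs_sum_le_sum_abs _ _).trans (Finset.sum_le_sum fun i _ => ?_)
    refine (Finset.abs_sum_le_sum_abs _ _).trans (Finset.sum_le_sum fun j _ => ?_)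
    rw [abs_mul, abs_mul]
    refine mul_le_mul_of_nonneg_left ?_ (by positivity)
    have h2 := abs_sub (A i j) (A j i)
    linarith [hK i j, hK j i]
  rw [abs_mul, abs_two]
  have h3 : ∑ i, ∑ j, |s j| * |z i| * (2 * K) ≤ 3 * K * (sq3 s + sq3 z) := by
    simp only [Fin.sum_univ_three, sq3]
    have e : ∀ x : ℝ, x ^ 2 = |x| ^ 2 := fun x => (sq_abs x).symm
    rw [e (s 0), e (s 1), e (s 2), e (z 0), e (z 1), e (z 2)]
    have : ∀ i j : Fin 3, 0 ≤ K * (|s j| - |z i|) ^ 2 := fun i j => by positivity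
    nlinarith [this 0 0, this 0 1, this 0 2, this 1 0, this 1 1, this 1 2, this 2 0, this 2 1,
      this 2 2]
  linarith

lemma Rm_le {K Kv : ℝ} {t : ℝ} {x : V}
    (h1 : ‖fderiv ℝ (fun y => u t y + T (u t) y) x‖ ≤ Kv) (h2 : ‖fderiv ℝ (w t) x‖ ≤ K) :
    |Rm T u w t x| ≤ (6 * Kv + 18 * K) * sq3 (u t x - w t x) +
      12 * K * sq3 (T (u t) x - T (w t) x) := by
  have hK0 : 0 ≤ K := (norm_nonneg _).trans h2
  have a1 : |∑ i, 2 * (u t x i - w t x i) *
      fderiv ℝ (fun y => u t y + T (u t) y) x (u t x - w t x) i| ≤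
      6 * Kv * sq3 (u t x - w t x) :=
    quad_bound (L := fderiv ℝ (fun y => u t y + T (u t) y) x)
      (fun i j => (entry_le _ i j).trans h1) (u t x - w t x)
  have a2 := bil_bound (u t x - w t x) ((u t x - w t x) + (T (u t) x - T (w t) x))
    (fun i j => fderiv ℝ (w t) x (Pi.single j 1) i) (K := K)
    (fun i j => (entry_le _ i j).trans h2)
  have a3 := sq3_add (u t x - w t x) (T (u t) x - T (w t) x)
  have a4 : |Rm T u w t x| ≤ 6 * Kv * sq3 (u t x - w t x) +
      6 * K * (sq3 ((u t x - w t x) + (T (u t) x - T (w t) x)) + sq3 (u t x - w t x)) := by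
    unfold Rm
    refine (abs_add_le _ _).trans (add_le_add a1 ?_)
    exact a2
  have a5 : 6 * K * (sq3 ((u t x - w t x) + (T (u t) x - T (w t) x)) + sq3 (u t x - w t x)) ≤
      6 * K * ((2 * sq3 (u t x - w t x) + 2 * sq3 (T (u t) x - T (w t) x)) +
        sq3 (u t x - w t x)) :=
    mul_le_mul_of_nonneg_left (by linarith) (by positivity)
  linarith

lemma deriv_bound (hT : IsOp T C) (hu : IsModSol T (Ico 0 a) u q) (hw : IsModSol T (Ico 0 a) w r)
    {t : ℝ} (ht : t ∈ Ioo 0 a) {K : ℝ} (hK : ∀ x, ‖u t x‖ ≤ K ∧ ‖fderiv ℝ (u t) x‖ ≤ K)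
    (hKw : ∀ x, ‖fderiv ℝ (w t) x‖ ≤ K) :
    |∫ x in Dom, dz (fun s y => u s y - w s y) t x| ≤
      (6 * (K + |C| * K) + 18 * K + 12 * K * C ^ 2) * ez (fun s y => u s y - w s y) t := by
  have htI : t ∈ Ico 0 a := ⟨ht.1.le, ht.2⟩
  have cu : ContDiff ℝ 1 (u t) := contDiff_slice hu.contDiffOn_u htI
  have cw : ContDiff ℝ 1 (w t) := contDiff_slice hw.contDiffOn_u htI
  have cq : ContDiff ℝ 1 (q t) := contDiff_slice hu.contDiffOn_q htI
  have cr : ContDiff ℝ 1 (r t) := contDiff_slice hw.contDiffOn_q htI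
  have pu := hu.periodic_u t htI
  have pw := hw.periodic_u t htI
  have pq := hu.periodic_q t htI
  have pr := hw.periodic_q t htI
  obtain ⟨cT, hTd⟩ := hT.c1 (u t) K cu pu (fun x => (hK x).1) (fun x => (hK x).2)
  have cTw0 := (hT.cont (w t) cw.continuous pw).1
  have pTw := (hT.cont (w t) cw.continuous pw).2
  have pTu := (hT.cont (u t) cu.continuous pu).2
  have hK0 : 0 ≤ K := (norm_nonneg _).trans (hK 0).1
  have cZ : ContDiff ℝ 1 (fun y => u t y - w t y) := cu.sub cw
  have cV : ContDiff ℝ 1 (fun y => u t y + T (u t) y) := cu.add cT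
  have pZ : Periodic3 (fun y => u t y - w t y) := by
    intro i x; simp only; rw [pu i x, pw i x]
  have pV : Periodic3 (fun y => u t y + T (u t) y) := by
    intro i x; simp only; rw [pu i x, pTu i x]
  have g1 : ContDiff ℝ 1 (fun y => sq3 (u t y - w t y) • (u t y + T (u t) y)) :=
    (sq3_contDiff.comp cZ).smul cV
  have g1p : Periodic3 (fun y => sq3 (u t y - w t y) • (u t y + T (u t) y)) := by
    intro i x; simp only; rw [pu i x, pw i x, pTu i x]
  have g2 : ContDiff ℝ 1
      (fun y => ip (u t y + T (u t) y) (u t y - w t y) • (u t y - w t y)) :=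
    (ip_cd cV cZ).smul cZ
  have g2p : Periodic3
      (fun y => ip (u t y + T (u t) y) (u t y - w t y) • (u t y - w t y)) := by
    intro i x; simp only; rw [pu i x, pw i x, pTu i x]
  have g3 : ContDiff ℝ 1 (fun y => (q t y - r t y) • (u t y - w t y)) := (cq.sub cr).smul cZ
  have g3p : Periodic3 (fun y => (q t y - r t y) • (u t y - w t y)) := by
    intro i x; simp only; rw [pu i x, pw i x, pq i x, pr i x]
  have hfV : Continuous (fun x => fderiv ℝ (fun y => u t y + T (u t) y) x (u t x - w t x)) :=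
    (cV.continuous_fderiv one_ne_zero).clm_apply cZ.continuous
  have hfw : ∀ i, Continuous (fun x => fderiv ℝ (w t) x (Pi.single i 1)) := fun i =>
    (cw.continuous_fderiv one_ne_zero).clm_apply continuous_const
  have hRc : Continuous (Rm T u w t) := by
    unfold Rm
    refine Continuous.add (continuous_finsetSum _ fun i _ => ?_) (continuous_const.mul
      (continuous_finsetSum _ fun i _ => continuous_finsetSum _ fun j _ => ?_))
    · exact (continuous_const.mul ((continuous_apply i).comp cZ.continuous)).mul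
        ((continuous_apply i).comp hfV)
    · exact ((((continuous_apply j).comp cZ.continuous).add
        (((continuous_apply j).comp cT.continuous).sub ((continuous_apply j).comp cTw0))).mul
        ((continuous_apply i).comp cZ.continuous)).mul
        (((continuous_apply i).comp (hfw j)).sub ((continuous_apply j).comp (hfw i)))
  have hRp : Periodic3 (Rm T u w t) := by
    intro i x
    unfold Rm
    rw [pu i x, pw i x, pTu i x, pTw i x, pV.fderiv i x, pw.fderiv i x]
  have i1 : IntegrableOn (fun x => divergence (fun y => sq3 (u t y - w t y) •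
      (u t y + T (u t) y)) x) Dom := g1p.trace.integrableOn (continuous_grad g1).matrix_trace
  have i2 : IntegrableOn (fun x => divergence (fun y => ip (u t y + T (u t) y) (u t y - w t y) •
      (u t y - w t y)) x) Dom := g2p.trace.integrableOn (continuous_grad g2).matrix_trace
  have i3 : IntegrableOn (fun x => divergence (fun y => (q t y - r t y) •
      (u t y - w t y)) x) Dom := g3p.trace.integrableOn (continuous_grad g3).matrix_trace
  have iR : IntegrableOn (Rm T u w t) Dom := hRp.integrableOn hRc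
  have e1 : ∫ x in Dom, dz (fun s y => u s y - w s y) t x = -∫ x in Dom, Rm T u w t x := by
    simp_rw [dz_eq hT hu hw ht]
    have a1 : ∫ x in Dom, (-divergence (fun y => sq3 (u t y - w t y) • (u t y + T (u t) y)) x +
        2 * divergence (fun y => ip (u t y + T (u t) y) (u t y - w t y) • (u t y - w t y)) x -
        2 * divergence (fun y => (q t y - r t y) • (u t y - w t y)) x - Rm T u w t x) =
        (∫ x in Dom, (-divergence (fun y => sq3 (u t y - w t y) • (u t y + T (u t) y)) x +
        2 * divergence (fun y => ip (u t y + T (u t) y) (u t y - w t y) • (u t y - w t y)) x -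
        2 * divergence (fun y => (q t y - r t y) • (u t y - w t y)) x)) -
        ∫ x in Dom, Rm T u w t x :=
      integral_sub ((i1.neg.add (i2.const_mul 2)).sub (i3.const_mul 2)) iR
    have a2 : ∫ x in Dom, (-divergence (fun y => sq3 (u t y - w t y) • (u t y + T (u t) y)) x +
        2 * divergence (fun y => ip (u t y + T (u t) y) (u t y - w t y) • (u t y - w t y)) x -
        2 * divergence (fun y => (q t y - r t y) • (u t y - w t y)) x) =
        (∫ x in Dom, (-divergence (fun y => sq3 (u t y - w t y) • (u t y + T (u t) y)) x +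
        2 * divergence (fun y => ip (u t y + T (u t) y) (u t y - w t y) • (u t y - w t y)) x)) -
        ∫ x in Dom, 2 * divergence (fun y => (q t y - r t y) • (u t y - w t y)) x :=
      integral_sub (i1.neg.add (i2.const_mul 2)) (i3.const_mul 2)
    have a3 : ∫ x in Dom, (-divergence (fun y => sq3 (u t y - w t y) • (u t y + T (u t) y)) x +
        2 * divergence (fun y => ip (u t y + T (u t) y) (u t y - w t y) • (u t y - w t y)) x) =
        (∫ x in Dom, -divergence (fun y => sq3 (u t y - w t y) • (u t y + T (u t) y)) x) +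
        ∫ x in Dom, 2 * divergence (fun y => ip (u t y + T (u t) y) (u t y - w t y) •
          (u t y - w t y)) x := integral_add i1.neg (i2.const_mul 2)
    rw [a1, a2, a3, integral_neg, integral_const_mul, integral_const_mul,
      integral_divergence_eq_zero g1 g1p, integral_divergence_eq_zero g2 g2p,
      integral_divergence_eq_zero g3 g3p]
    simp
  rw [e1, abs_neg]
  have hVn : ∀ x, ‖fderiv ℝ (fun y => u t y + T (u t) y) x‖ ≤ K + |C| * K := by
    intro x
    have h1 : fderiv ℝ (fun y => u t y + T (u t) y) x = fderiv ℝ (u t) x + fderiv ℝ (T (u t)) x :=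
      ((cu.differentiable one_ne_zero x).hasFDerivAt.add
        (cT.differentiable one_ne_zero x).hasFDerivAt).fderiv
    rw [h1]
    refine (norm_add_le _ _).trans (add_le_add (hK x).2 ((hTd x).trans ?_))
    exact mul_le_mul_of_nonneg_right (le_abs_self C) hK0
  have hpt : ∀ x, ‖Rm T u w t x‖ ≤ (6 * (K + |C| * K) + 18 * K) * sq3 (u t x - w t x) +
      12 * K * sq3 (T (u t) x - T (w t) x) := fun x => Rm_le (hVn x) (hKw x)
  have iS : IntegrableOn (fun x => sq3 (u t x - w t x)) Dom := by
    have : Periodic3 (fun x => sq3 (u t x - w t x)) := by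
      intro i x; simp only; rw [pu i x, pw i x]
    exact this.integrableOn ((sq3_contDiff (n := 1)).comp cZ).continuous
  have iT : IntegrableOn (fun x => sq3 (T (u t) x - T (w t) x)) Dom := by
    have : Periodic3 (fun x => sq3 (T (u t) x - T (w t) x)) := by
      intro i x; simp only; rw [pTu i x, pTw i x]
    exact this.integrableOn ((sq3_contDiff (n := 0)).continuous.comp (cT.continuous.sub cTw0))
  have h3 := norm_integral_le_of_norm_le (((iS.const_mul (6 * (K + |C| * K) + 18 * K))).add
    (iT.const_mul (12 * K))) (Filter.Eventually.of_forall hpt)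
  have h4 : ∫ x in Dom, ((6 * (K + |C| * K) + 18 * K) * sq3 (u t x - w t x) +
      12 * K * sq3 (T (u t) x - T (w t) x)) =
      (6 * (K + |C| * K) + 18 * K) * (∫ x in Dom, sq3 (u t x - w t x)) +
      12 * K * ∫ x in Dom, sq3 (T (u t) x - T (w t) x) := by
    have := integral_add (μ := volume.restrict Dom) (iS.const_mul (6 * (K + |C| * K) + 18 * K))
      (iT.const_mul (12 * K))
    rw [integral_const_mul, integral_const_mul] at this
    exact this
  have h5 : ∫ x in Dom, sq3 (T (u t) x - T (w t) x) ≤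
      C ^ 2 * ∫ x in Dom, sq3 (u t x - w t x) := by
    have h6 := hT.l2 (fun x => u t x - w t x) cZ.continuous pZ
    rw [hT.sub (u t) (w t) cu.continuous pu cw.continuous pw] at h6
    exact h6
  have h7 : 12 * K * ∫ x in Dom, sq3 (T (u t) x - T (w t) x) ≤
      12 * K * (C ^ 2 * ∫ x in Dom, sq3 (u t x - w t x)) :=
    mul_le_mul_of_nonneg_left h5 (by positivity)
  have h8 : |∫ x in Dom, Rm T u w t x| ≤
      (6 * (K + |C| * K) + 18 * K) * (∫ x in Dom, sq3 (u t x - w t x)) +
      12 * K * ∫ x in Dom, sq3 (T (u t) x - T (w t) x) := h3.trans (le_of_eq h4)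
  have h9 : ez (fun s y => u s y - w s y) t = ∫ x in Dom, sq3 (u t x - w t x) := rfl
  rw [h9]
  linarith

/-- **Uniqueness** of classical solutions. -/
theorem unique (hT : IsOp T C) (hu : IsModSol T (Ico 0 a) u q) (hw : IsModSol T (Ico 0 a) w r)
    (h0 : u 0 = w 0) : ∀ t ∈ Ico 0 a, u t = w t := by
  have hcz : ContDiffOn ℝ 1 (fun p : ℝ × V => (fun s y => u s y - w s y) p.1 p.2)
      (Ico 0 a ×ˢ univ) := hu.contDiffOn_u.sub hw.contDiffOn_u
  have hcont := ez_cont (z := fun s y => u s y - w s y) hcz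
  intro t ht
  obtain ⟨b, hb1, hb2⟩ := exists_between ht.2
  have hb0 : 0 ≤ b := ht.1.trans hb1.le
  obtain ⟨K1, hK10, hK1⟩ := unif_bound hu.contDiffOn_u hu.periodic_u hb0 hb2
  obtain ⟨K2, hK20, hK2⟩ := unif_bound hw.contDiffOn_u hw.periodic_u hb0 hb2
  set K : ℝ := max K1 K2 with hK
  set M : ℝ := 6 * (K + |C| * K) + 18 * K + 12 * K * C ^ 2 with hM
  have hE0 : ez (fun s y => u s y - w s y) 0 = 0 := by
    unfold ez
    simp only [h0]
    simp [sq3]
  have hanti : AntitoneOn (fun s => ez (fun s y => u s y - w s y) s * Real.exp (-M * s))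
      (Icc 0 b) := by
    have hder : ∀ s ∈ interior (Icc 0 b), HasDerivAt
        (fun s => ez (fun s y => u s y - w s y) s * Real.exp (-M * s))
        ((∫ x in Dom, dz (fun s y => u s y - w s y) s x) * Real.exp (-M * s)
          + ez (fun s y => u s y - w s y) s * (Real.exp (-M * s) * (-M * 1))) s := by
      intro s hs
      rw [interior_Icc] at hs
      have hs' : s ∈ Ioo 0 a := ⟨hs.1, hs.2.trans hb2⟩
      exact (ez_hasDerivAt (z := fun s y => u s y - w s y) hcz hs').mul (((hasDerivAt_id s).const_mul (-M)).exp)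
    refine antitoneOn_of_deriv_nonpos (convex_Icc _ _) ?_ ?_ ?_
    · exact (hcont.mono (fun s hs => ⟨hs.1, hs.2.trans_lt hb2⟩)).mul (by fun_prop)
    · intro s hs
      exact (hder s hs).differentiableAt.differentiableWithinAt
    · intro s hs
      rw [(hder s hs).deriv]
      rw [interior_Icc] at hs
      have hs' : s ∈ Ioo 0 a := ⟨hs.1, hs.2.trans hb2⟩
      have hsb : s ∈ Icc 0 b := ⟨hs.1.le, hs.2.le⟩
      have h1 := (abs_le.1 (deriv_bound hT hu hw hs' (K := K)
        (fun x => ⟨((hK1 s hsb x).1).trans (le_max_left _ _),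
          ((hK1 s hsb x).2).trans (le_max_left _ _)⟩)
        (fun x => ((hK2 s hsb x).2).trans (le_max_right _ _)))).2
      have h2 : 0 < Real.exp (-M * s) := Real.exp_pos _
      rw [← hM] at h1
      have h3 := mul_le_mul_of_nonneg_right h1 h2.le
      linarith
  have h1 := hanti ⟨le_rfl, hb0⟩ ⟨ht.1, hb1.le⟩ ht.1
  simp only [hE0, zero_mul] at h1
  have hEz : ez (fun s y => u s y - w s y) t = 0 :=
    le_antisymm (nonpos_of_mul_nonpos_left h1 (Real.exp_pos _)) (ez_nonneg _ t)
  have cu : ContDiff ℝ 1 (u t) := contDiff_slice hu.contDiffOn_u ht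
  have cw : ContDiff ℝ 1 (w t) := contDiff_slice hw.contDiffOn_u ht
  have hper : Periodic3 (fun x => sq3 (u t x - w t x)) := by
    intro i x
    simp only
    rw [hw.periodic_u t ht i x, hu.periodic_u t ht i x]
  have hz := eq_zero_of_integral_eq_zero hper
    ((sq3_contDiff (n := 1)).comp (cu.sub cw)).continuous (fun x => sq3_nonneg _) hEz
  ext1 x
  exact sub_eq_zero.1 (sq3_eq_zero (hz x))

end Pool.Agent.Zk71.MB
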