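import Pool.Agent.Zk27.MB.Defs

/-! # The energy of a periodic field, its time derivative, and bounds for gradients -/

set_option autoImplicit false

open MeasureTheory Set
open scoped ENNReal NNReal Topology

namespace Pool.Agent.Zk71.MB

open Pool.Agent.H708R2.EulerSign Pool.Agent.Zk27.MB

/-- The energy. -/
noncomputable def ez (z : ℝ → V → V) (t : ℝ) : ℝ := ∫ x in Dom, sq3 (z t x)

lemma ez_nonneg (z : ℝ → V → V) (t : ℝ) : 0 ≤ ez z t := integral_nonneg fun _ => sq3_nonneg _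

variable {a : ℝ} {z : ℝ → V → V}

lemma cd_sq (hz : ContDiffOn ℝ 1 (fun p : ℝ × V => z p.1 p.2) (Ico 0 a ×ˢ univ)) :
    ContDiffOn ℝ 1 (fun p : ℝ × V => sq3 (z p.1 p.2)) (Ico 0 a ×ˢ univ) :=
  sq3_contDiff.comp_contDiffOn hz

lemma ez_cont (hz : ContDiffOn ℝ 1 (fun p : ℝ × V => z p.1 p.2) (Ico 0 a ×ˢ univ)) :
    ContinuousOn (ez z) (Ico 0 a) := by
  intro t ht
  have hS := (cd_sq hz).continuousOn
  obtain ⟨b, hb1, hb2⟩ := exists_between ht.2
  have hK : IsCompact (Icc 0 b ×ˢ closure Dom) := isCompact_Icc.prod dom_bdd.isCompact_closure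
  have hsub : Icc 0 b ×ˢ closure Dom ⊆ Ico 0 a ×ˢ (univ : Set V) :=
    prod_mono (fun s hs => ⟨hs.1, hs.2.trans_lt hb2⟩) (subset_univ _)
  obtain ⟨C, hC⟩ := hK.exists_bound_of_continuousOn (hS.mono hsub)
  have hev : ∀ᶠ s in 𝓝[Ico 0 a] t, s ∈ Icc 0 b := by
    have h1 : ∀ᶠ s in 𝓝[Ico 0 a] t, s < b := nhdsWithin_le_nhds (Iio_mem_nhds hb1)
    filter_upwards [h1, self_mem_nhdsWithin] with s hs1 hs2
    exact ⟨hs2.1, hs1.le⟩
  refine continuousWithinAt_of_dominated (bound := fun _ => C) ?_ ?_ ?_ ?_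
  · filter_upwards [hev] with s hs
    have : ContDiff ℝ 1 (fun x => sq3 (z s x)) :=
      contDiff_slice (f := fun s x => sq3 (z s x)) (cd_sq hz) ⟨hs.1, hs.2.trans_lt hb2⟩
    exact this.continuous.aestronglyMeasurable
  · filter_upwards [hev] with s hs
    refine (ae_restrict_iff' dom_meas).2 (Filter.Eventually.of_forall fun x hx => ?_)
    exact hC (s, x) ⟨hs, subset_closure hx⟩
  · exact integrableOn_const dom_lt_top.ne
  · refine Filter.Eventually.of_forall fun x => ?_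
    have h1 : ContinuousWithinAt (fun p : ℝ × V => sq3 (z p.1 p.2))
        (Ico 0 a ×ˢ univ) (t, x) := hS (t, x) ⟨ht, mem_univ _⟩
    exact h1.comp (t := Ico 0 a ×ˢ univ) (f := fun s : ℝ => ((s, x) : ℝ × V))
      (by fun_prop) (fun s hs => ⟨hs, mem_univ _⟩)

/-- The time derivative of `|z|²`. -/
noncomputable def dz (z : ℝ → V → V) (t : ℝ) (x : V) : ℝ :=
  fderiv ℝ (fun p : ℝ × V => sq3 (z p.1 p.2)) (t, x) (1, 0)

lemma sq_hasDerivAt (hz : ContDiffOn ℝ 1 (fun p : ℝ × V => z p.1 p.2) (Ico 0 a ×ˢ univ))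
    {t : ℝ} (ht : t ∈ Ioo 0 a) (x : V) :
    HasDerivAt (fun s => sq3 (z s x)) (dz z t x) t := by
  have hmem : Ico 0 a ×ˢ (univ : Set V) ∈ 𝓝 (t, x) :=
    prod_mem_nhds (Ico_mem_nhds ht.1 ht.2) Filter.univ_mem
  have h1 : DifferentiableAt ℝ (fun p : ℝ × V => sq3 (z p.1 p.2)) (t, x) :=
    ((cd_sq hz).contDiffAt hmem).differentiableAt one_ne_zero
  have h2 : HasDerivAt (fun s : ℝ => ((s, x) : ℝ × V)) (1, 0) t :=
    (hasDerivAt_id t).prodMk (hasDerivAt_const t x)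
  exact h1.hasFDerivAt.comp_hasDerivAt t h2

lemma ez_hasDerivAt (hz : ContDiffOn ℝ 1 (fun p : ℝ × V => z p.1 p.2) (Ico 0 a ×ˢ univ))
    {t : ℝ} (ht : t ∈ Ioo 0 a) : HasDerivAt (ez z) (∫ x in Dom, dz z t x) t := by
  obtain ⟨c, ha1, ha2⟩ := exists_between ht.1
  obtain ⟨b, hb1, hb2⟩ := exists_between ht.2
  have hO : IsOpen (Ioo 0 a ×ˢ (univ : Set V)) := isOpen_Ioo.prod isOpen_univ
  have hS1 : ContDiffOn ℝ 1 (fun p : ℝ × V => sq3 (z p.1 p.2)) (Ioo 0 a ×ˢ univ) :=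
    (cd_sq hz).mono (prod_mono Ioo_subset_Ico_self subset_rfl)
  have hd : ContinuousOn (fun p : ℝ × V =>
      fderiv ℝ (fun p : ℝ × V => sq3 (z p.1 p.2)) p (1, 0)) (Ioo 0 a ×ˢ univ) :=
    (hS1.continuousOn_fderiv_of_isOpen hO le_rfl).clm_apply continuousOn_const
  have hK : IsCompact (Icc c b ×ˢ closure Dom) := isCompact_Icc.prod dom_bdd.isCompact_closure
  have hsub : Icc c b ×ˢ closure Dom ⊆ Ioo 0 a ×ˢ (univ : Set V) :=
    prod_mono (fun s hs => ⟨ha1.trans_le hs.1, hs.2.trans_lt hb2⟩) (subset_univ _)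
  obtain ⟨C, hC⟩ := hK.exists_bound_of_continuousOn (hd.mono hsub)
  have hslice : ∀ s ∈ Ioo 0 a, Continuous (fun x => sq3 (z s x)) := fun s hs =>
    (contDiff_slice (f := fun s x => sq3 (z s x)) (cd_sq hz) ⟨hs.1.le, hs.2⟩).continuous
  have hnh : Icc c b ∈ 𝓝 t := Icc_mem_nhds ha2 hb1
  refine (hasDerivAt_integral_of_dominated_loc_of_deriv_le (s := Icc c b)
    (F := fun s x => sq3 (z s x)) (F' := fun s x => dz z s x)
    (bound := fun _ => C) (μ := volume.restrict Dom) hnh ?_ ?_ ?_ ?_ ?_ ?_).2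
  · filter_upwards [Ioo_mem_nhds ht.1 ht.2] with s hs
    exact (hslice s hs).aestronglyMeasurable
  · have hcl : IntegrableOn (fun x => sq3 (z t x)) (closure Dom) :=
      (hslice t ht).continuousOn.integrableOn_compact dom_bdd.isCompact_closure
    exact hcl.mono_set subset_closure
  · have : Continuous (fun x => dz z t x) := by
      have h := hd.comp_continuous (f := fun x : V => ((t, x) : ℝ × V)) (by fun_prop)
        (fun x => ⟨ht, mem_univ _⟩)
      exact h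
    exact this.aestronglyMeasurable
  · refine (ae_restrict_iff' dom_meas).2 (Filter.Eventually.of_forall fun x hx s hs => ?_)
    exact hC (s, x) ⟨hs, subset_closure hx⟩
  · exact integrableOn_const dom_lt_top.ne
  · refine Filter.Eventually.of_forall fun x s hs => ?_
    exact sq_hasDerivAt hz ⟨ha1.trans_le hs.1, hs.2.trans_lt hb2⟩ x

/-- A periodic function which is bounded on the closure of the cell is bounded. -/
lemma bound_of_dom {E : Type*} [SeminormedAddCommGroup E] {f : V → E} (hp : Periodic3 f) {C : ℝ}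
    (hC : ∀ x ∈ closure Dom, ‖f x‖ ≤ C) : ∀ x, ‖f x‖ ≤ C := by
  intro x
  obtain ⟨g, hg, -⟩ := dom_exists_unique x
  have h2 : (g +ᵥ x : V) = x + g := by rw [add_comm]; rfl
  have h3 : x + (g : V) ∈ closure Dom := by
    rw [← h2]; exact subset_closure hg
  have := hC _ h3
  rwa [hp.lat g.2] at this

/-- Uniform bounds for a field and its gradient on compact time intervals. -/
lemma unif_bound (hz : ContDiffOn ℝ 1 (fun p : ℝ × V => z p.1 p.2) (Ico 0 a ×ˢ univ))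
    (hp : ∀ t ∈ Ico 0 a, Periodic3 (z t)) {b : ℝ} (hb0 : 0 ≤ b) (hb : b < a) :
    ∃ K : ℝ, 0 ≤ K ∧ ∀ t ∈ Icc 0 b, ∀ x, ‖z t x‖ ≤ K ∧ ‖fderiv ℝ (z t) x‖ ≤ K := by
  have ha : 0 < a := hb0.trans_lt hb
  have hK : IsCompact (Icc 0 b ×ˢ closure Dom) := isCompact_Icc.prod dom_bdd.isCompact_closure
  have hsub : Icc 0 b ×ˢ closure Dom ⊆ Ico 0 a ×ˢ (univ : Set V) :=
    prod_mono (fun s hs => ⟨hs.1, hs.2.trans_lt hb⟩) (subset_univ _)
  have hU : UniqueDiffOn ℝ (Ico 0 a ×ˢ (univ : Set V)) :=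
    (uniqueDiffOn_Ico 0 a).prod uniqueDiffOn_univ
  have hd := hz.continuousOn_fderivWithin hU le_rfl
  obtain ⟨C1, hC1⟩ := hK.exists_bound_of_continuousOn (hz.continuousOn.mono hsub)
  obtain ⟨C2, hC2⟩ := hK.exists_bound_of_continuousOn (hd.mono hsub)
  refine ⟨max |C1| |C2|, (abs_nonneg C1).trans (le_max_left _ _), fun t ht => ?_⟩
  have htI : t ∈ Ico 0 a := ⟨ht.1, ht.2.trans_lt hb⟩
  have h1 : ∀ x, ‖z t x‖ ≤ max |C1| |C2| := by
    refine bound_of_dom (hp t htI) fun x hx => ?_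
    exact (hC1 (t, x) ⟨ht, hx⟩).trans ((le_abs_self C1).trans (le_max_left _ _))
  have h2 : ∀ x, ‖fderiv ℝ (z t) x‖ ≤ max |C1| |C2| := by
    refine bound_of_dom (hp t htI).fderiv fun x hx => ?_
    have h3 := hC2 (t, x) ⟨ht, hx⟩
    have h4 : HasFDerivWithinAt (fun p : ℝ × V => z p.1 p.2)
        (fderivWithin ℝ (fun p : ℝ × V => z p.1 p.2) (Ico 0 a ×ˢ univ) (t, x))
        (Ico 0 a ×ˢ univ) (t, x) :=
      ((hz.differentiableOn one_ne_zero) (t, x) ⟨htI, mem_univ _⟩).hasFDerivWithinAt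
    have h5 : HasFDerivAt (fun y : V => ((t, y) : ℝ × V)) (ContinuousLinearMap.inr ℝ ℝ V) x :=
      hasFDerivAt_prodMk_right t x
    have h6 : HasFDerivAt (z t)
        ((fderivWithin ℝ (fun p : ℝ × V => z p.1 p.2) (Ico 0 a ×ˢ univ) (t, x)).comp
          (ContinuousLinearMap.inr ℝ ℝ V)) x := by
      rw [← hasFDerivWithinAt_univ] at h5 ⊢
      exact h4.comp x h5 (fun y _ => ⟨htI, mem_univ _⟩)
    rw [h6.fderiv]
    refine (ContinuousLinearMap.opNorm_comp_le _ _).trans ?_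
    have h7 : ‖ContinuousLinearMap.inr ℝ ℝ V‖ ≤ 1 := by
      refine ContinuousLinearMap.opNorm_le_bound _ zero_le_one fun y => ?_
      rw [one_mul, ContinuousLinearMap.inr_apply, Prod.norm_def]
      simp
    have h8 : ‖fderivWithin ℝ (fun p : ℝ × V => z p.1 p.2) (Ico 0 a ×ˢ univ) (t, x)‖ *
        ‖ContinuousLinearMap.inr ℝ ℝ V‖ ≤
        ‖fderivWithin ℝ (fun p : ℝ × V => z p.1 p.2) (Ico 0 a ×ˢ univ) (t, x)‖ * 1 :=
      mul_le_mul_of_nonneg_left h7 (norm_nonneg _)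
    rw [mul_one] at h8
    exact h8.trans (h3.trans ((le_abs_self C2).trans (le_max_right _ _)))
  exact fun x => ⟨h1 x, h2 x⟩

end Pool.Agent.Zk71.MB
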