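import Pool.Agent.Zk71.MB.En

/-! # The pointwise energy identity for the difference of two solutions -/

set_option autoImplicit false

open MeasureTheory Set
open scoped ENNReal NNReal Topology

namespace Pool.Agent.Zk71.MB

open Pool.Agent.H708R2.EulerSign Pool.Agent.Zk27.MB

lemma alg (U W P Q : Fin 3 → ℝ) (A B G : Fin 3 → Fin 3 → ℝ) (dq dr : Fin 3 → ℝ) :
    ∑ i, 2 * (U i - W i) * ((-(∑ j, (U j + P j) * (A i j - A j i)) - dq i) -
      (-(∑ j, (W j + Q j) * (B i j - B j i)) - dr i)) =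
    -(∑ j, (U j + P j) * (∑ i, 2 * (U i - W i) * (A i j - B i j))) +
      2 * (∑ j, (U j - W j) * ∑ i, ((A i j + G i j) * (U i - W i) +
        (U i + P i) * (A i j - B i j))) -
      2 * (∑ j, (U j - W j) * (dq j - dr j)) -
      (∑ i, 2 * (U i - W i) * ∑ j, (U j - W j) * (A i j + G i j)) -
      2 * ∑ i, ∑ j, ((U j - W j) + (P j - Q j)) * (U i - W i) * (B i j - B j i) := by
  simp only [Fin.sum_univ_three]
  ring

/-- the inner product -/
def ip (y y' : V) : ℝ := ∑ i, y i * y' i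

lemma ip_cd {n : WithTop ℕ∞} {f g : V → V} (hf : ContDiff ℝ n f) (hg : ContDiff ℝ n g) :
    ContDiff ℝ n fun x => ip (f x) (g x) := by
  unfold ip
  exact ContDiff.sum fun i _ => (contDiff_pi.1 hf i).mul (contDiff_pi.1 hg i)

lemma ip_fderiv {f g : V → V} {x : V} (hf : DifferentiableAt ℝ f x)
    (hg : DifferentiableAt ℝ g x) (y : V) :
    fderiv ℝ (fun x => ip (f x) (g x)) x y =
      ∑ i, (fderiv ℝ f x y i * g x i + f x i * fderiv ℝ g x y i) := by
  have h1 : HasFDerivAt (fun x => ip (f x) (g x)) (∑ i, (f x i •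
      ((ContinuousLinearMap.proj i : V →L[ℝ] ℝ).comp (fderiv ℝ g x)) + g x i •
      ((ContinuousLinearMap.proj i : V →L[ℝ] ℝ).comp (fderiv ℝ f x)))) x := by
    unfold ip
    refine HasFDerivAt.fun_sum fun i _ => ?_
    exact (hasFDerivAt_pi'.1 hf.hasFDerivAt i).mul (hasFDerivAt_pi'.1 hg.hasFDerivAt i)
  rw [h1.fderiv, sum_apply]
  refine Finset.sum_congr rfl fun i _ => ?_
  simp
  ring

lemma sq3_fderiv {f : V → V} {x : V} (hf : DifferentiableAt ℝ f x) (y : V) :
    fderiv ℝ (fun x => sq3 (f x)) x y = ∑ i, 2 * f x i * fderiv ℝ f x y i := by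
  have h1 : (fun x => sq3 (f x)) = fun x => ip (f x) (f x) := by
    funext x
    unfold sq3 ip
    exact Finset.sum_congr rfl fun i _ => by ring
  rw [h1, ip_fderiv hf hf]
  exact Finset.sum_congr rfl fun i _ => by ring

variable {T : (V → V) → V → V} {C a : ℝ} {u w : ℝ → V → V} {q r : ℝ → V → ℝ}

/-- the terms which are not divergences -/
noncomputable def Rm (T : (V → V) → V → V) (u w : ℝ → V → V) (t : ℝ) (x : V) : ℝ :=
  (∑ i, 2 * (u t x i - w t x i) * fderiv ℝ (fun y => u t y + T (u t) y) x (u t x - w t x) i) +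
    2 * ∑ i, ∑ j, ((u t x j - w t x j) + (T (u t) x j - T (w t) x j)) * (u t x i - w t x i) *
      (fderiv ℝ (w t) x (Pi.single j 1) i - fderiv ℝ (w t) x (Pi.single i 1) j)

lemma time_deriv (hw : IsModSol T (Ico 0 a) w r) {t : ℝ} (ht : t ∈ Ioo 0 a) (x : V) (i : Fin 3) :
    HasDerivAt (fun s => w s x i) (-(∑ j, (w t x j + T (w t) x j) *
      (fderiv ℝ (w t) x (Pi.single j 1) i - fderiv ℝ (w t) x (Pi.single i 1) j)) -
        fderiv ℝ (r t) x (Pi.single i 1)) t := by
  have htI : t ∈ Ico 0 a := ⟨ht.1.le, ht.2⟩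
  have hmem : Ico 0 a ×ˢ (univ : Set V) ∈ 𝓝 (t, x) :=
    prod_mem_nhds (Ico_mem_nhds ht.1 ht.2) Filter.univ_mem
  have hline : HasDerivAt (fun s : ℝ => ((s, x) : ℝ × V)) (1, 0) t :=
    (hasDerivAt_id t).prodMk (hasDerivAt_const t x)
  have hwtime : DifferentiableAt ℝ (fun s => w s x) t := by
    have h1 : DifferentiableAt ℝ (fun z : ℝ × V => w z.1 z.2) (t, x) :=
      (hw.contDiffOn_u.contDiffAt hmem).differentiableAt one_ne_zero
    exact (h1.hasFDerivAt.comp_hasDerivAt t hline).differentiableAt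
  have h1 : HasDerivAt (fun s => w s x i) (deriv (fun s => w s x i) t) t :=
    (hasDerivAt_pi.1 hwtime.hasDerivAt i).differentiableAt.hasDerivAt
  have h2 := hw.momentum t htI x i
  rw [derivWithin_of_mem_nhds (Ico_mem_nhds ht.1 ht.2)] at h2
  have h3 : deriv (fun s => w s x i) t = -(∑ j, (w t x j + T (w t) x j) *
      (fderiv ℝ (w t) x (Pi.single j 1) i - fderiv ℝ (w t) x (Pi.single i 1) j)) -
        fderiv ℝ (r t) x (Pi.single i 1) := by linarith
  rwa [h3] at h1

lemma dz_eq (hT : IsOp T C) (hu : IsModSol T (Ico 0 a) u q) (hw : IsModSol T (Ico 0 a) w r)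
    {t : ℝ} (ht : t ∈ Ioo 0 a) (x : V) :
    dz (fun s y => u s y - w s y) t x =
      -divergence (fun y => sq3 (u t y - w t y) • (u t y + T (u t) y)) x +
      2 * divergence (fun y => ip (u t y + T (u t) y) (u t y - w t y) • (u t y - w t y)) x -
      2 * divergence (fun y => (q t y - r t y) • (u t y - w t y)) x - Rm T u w t x := by
  have htI : t ∈ Ico 0 a := ⟨ht.1.le, ht.2⟩
  have cu : ContDiff ℝ 1 (u t) := contDiff_slice hu.contDiffOn_u htI
  have cw : ContDiff ℝ 1 (w t) := contDiff_slice hw.contDiffOn_u htI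
  have cq : ContDiff ℝ 1 (q t) := contDiff_slice hu.contDiffOn_q htI
  have cr : ContDiff ℝ 1 (r t) := contDiff_slice hw.contDiffOn_q htI
  obtain ⟨B, hB0, hB⟩ : ∃ B : ℝ, 0 ≤ B ∧ ∀ x, ‖u t x‖ ≤ B ∧ ‖fderiv ℝ (u t) x‖ ≤ B := by
    obtain ⟨K, hK0, hK⟩ := unif_bound (b := t) hu.contDiffOn_u hu.periodic_u ht.1.le ht.2
    exact ⟨K, hK0, fun x => hK t ⟨ht.1.le, le_rfl⟩ x⟩
  have cT : ContDiff ℝ 1 (T (u t)) :=
    (hT.c1 (u t) B cu (hu.periodic_u t htI) (fun x => (hB x).1) (fun x => (hB x).2)).1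
  have du : DifferentiableAt ℝ (u t) x := cu.differentiable one_ne_zero x
  have dw : DifferentiableAt ℝ (w t) x := cw.differentiable one_ne_zero x
  have dq : DifferentiableAt ℝ (q t) x := cq.differentiable one_ne_zero x
  have dr : DifferentiableAt ℝ (r t) x := cr.differentiable one_ne_zero x
  have dT : DifferentiableAt ℝ (T (u t)) x := cT.differentiable one_ne_zero x
  have dZ : DifferentiableAt ℝ (fun y => u t y - w t y) x := du.sub dw
  have dV : DifferentiableAt ℝ (fun y => u t y + T (u t) y) x := du.add dT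
  have eZ : fderiv ℝ (fun y => u t y - w t y) x = fderiv ℝ (u t) x - fderiv ℝ (w t) x :=
    (du.hasFDerivAt.sub dw.hasFDerivAt).fderiv
  have eV : fderiv ℝ (fun y => u t y + T (u t) y) x = fderiv ℝ (u t) x + fderiv ℝ (T (u t)) x :=
    (du.hasFDerivAt.add dT.hasFDerivAt).fderiv
  have eq1 : fderiv ℝ (fun y => q t y - r t y) x = fderiv ℝ (q t) x - fderiv ℝ (r t) x :=
    (dq.hasFDerivAt.sub dr.hasFDerivAt).fderiv
  have zdiv : divergence (fun y => u t y - w t y) x = 0 := by
    have h2 := hu.div_free t htI x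
    have h3 := hw.div_free t htI x
    rw [divergence_eq_sum] at h2 h3 ⊢
    rw [eZ]
    simp only [sub_apply, Pi.sub_apply, Finset.sum_sub_distrib, h2, h3,
      sub_zero]
  have vdiv : divergence (fun y => u t y + T (u t) y) x = 0 := by
    have h2 := hu.div_free t htI x
    have h3 := hT.div (u t) cu (hu.periodic_u t htI) x
    rw [divergence_eq_sum] at h2 h3 ⊢
    rw [eV]
    simp only [add_apply, Pi.add_apply, Finset.sum_add_distrib, h2, h3, add_zero]
  have dS : DifferentiableAt ℝ (fun y => sq3 (u t y - w t y)) x :=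
    ((sq3_contDiff (n := 1)).comp (cu.sub cw)).differentiable one_ne_zero x
  have dI : DifferentiableAt ℝ (fun y => ip (u t y + T (u t) y) (u t y - w t y)) x :=
    (ip_cd (cu.add cT) (cu.sub cw)).differentiable one_ne_zero x
  have hSt : HasDerivAt (fun s => sq3 (u s x - w s x))
      (∑ i, 2 * (u t x i - w t x i) * ((-(∑ j, (u t x j + T (u t) x j) *
      (fderiv ℝ (u t) x (Pi.single j 1) i - fderiv ℝ (u t) x (Pi.single i 1) j)) -
        fderiv ℝ (q t) x (Pi.single i 1)) - (-(∑ j, (w t x j + T (w t) x j) *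
      (fderiv ℝ (w t) x (Pi.single j 1) i - fderiv ℝ (w t) x (Pi.single i 1) j)) -
        fderiv ℝ (r t) x (Pi.single i 1)))) t := by
    unfold sq3
    refine HasDerivAt.fun_sum fun i _ => ?_
    have h := ((time_deriv hu ht x i).sub (time_deriv hw ht x i)).pow 2
    refine h.congr_deriv ?_
    simp
  have hcz : ContDiffOn ℝ 1 (fun p : ℝ × V => (fun s y => u s y - w s y) p.1 p.2)
      (Ico 0 a ×ˢ univ) := hu.contDiffOn_u.sub hw.contDiffOn_u
  rw [(sq_hasDerivAt hcz ht x).unique hSt]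
  have dQ : DifferentiableAt ℝ (fun y => q t y - r t y) x := dq.sub dr
  rw [divergence_smul dS dV, divergence_smul dI dZ, divergence_smul dQ dZ, zdiv, vdiv,
    mul_zero, mul_zero, mul_zero, zero_add, zero_add, zero_add,
    ← sum_mul_clm' (fderiv ℝ (fun y => sq3 (u t y - w t y)) x),
    ← sum_mul_clm' (fderiv ℝ (fun y => ip (u t y + T (u t) y) (u t y - w t y)) x),
    ← sum_mul_clm' (fderiv ℝ (fun y => q t y - r t y) x)]
  simp only [sq3_fderiv dZ, ip_fderiv dV dZ]
  unfold Rm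
  rw [eZ, eV, eq1]
  have e6 : ∀ i, (fderiv ℝ (u t) x + fderiv ℝ (T (u t)) x) (u t x - w t x) i =
      ∑ j, (u t x j - w t x j) * (fderiv ℝ (u t) x (Pi.single j 1) i +
        fderiv ℝ (T (u t)) x (Pi.single j 1) i) := by
    intro i
    rw [← sum_mul_clm]
    rfl
  simp only [e6]
  have key := alg (u t x) (w t x) (T (u t) x) (T (w t) x)
    (fun i j => fderiv ℝ (u t) x (Pi.single j 1) i) (fun i j => fderiv ℝ (w t) x (Pi.single j 1) i)
    (fun i j => fderiv ℝ (T (u t)) x (Pi.single j 1) i)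
    (fun i => fderiv ℝ (q t) x (Pi.single i 1)) (fun i => fderiv ℝ (r t) x (Pi.single i 1))
  rw [key]
  simp only [add_apply, sub_apply, Pi.add_apply, Pi.sub_apply]
  ring

end Pool.Agent.Zk71.MB
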